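import Pool.Agent.Lib.MP_2d002d_gt.PM.H70.P1

/-!
PM, module (P), second half: the integral inequality on the half line.
-/

set_option autoImplicit false

namespace Pool.Agent.Lib.MP_2d002d_gt.PM.H70

open MeasureTheory Set Filter

/-- Continuous and bounded on `[0, ∞)`. -/
def BC (f : ℝ → ℝ) : Prop :=
  ContinuousOn f (Ici 0) ∧ ∃ C : ℝ, ∀ z, 0 ≤ z → |f z| ≤ C

theorem BC.add {f g : ℝ → ℝ} (hf : BC f) (hg : BC g) : BC (fun z => f z + g z) := by
  obtain ⟨hfc, C, hC⟩ := hf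
  obtain ⟨hgc, D, hD⟩ := hg
  refine ⟨hfc.add hgc, C + D, fun z hz => ?_⟩
  exact (abs_add_le _ _).trans (add_le_add (hC z hz) (hD z hz))

theorem BC.neg {f : ℝ → ℝ} (hf : BC f) : BC (fun z => - f z) := by
  obtain ⟨hfc, C, hC⟩ := hf
  refine ⟨hfc.neg, C, fun z hz => ?_⟩
  rw [abs_neg]; exact hC z hz

theorem BC.sub {f g : ℝ → ℝ} (hf : BC f) (hg : BC g) : BC (fun z => f z - g z) := by
  have := hf.add hg.neg
  simpa only [sub_eq_add_neg] using this

theorem BC.mul {f g : ℝ → ℝ} (hf : BC f) (hg : BC g) : BC (fun z => f z * g z) := by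
  obtain ⟨hfc, C, hC⟩ := hf
  obtain ⟨hgc, D, hD⟩ := hg
  refine ⟨hfc.mul hgc, C * D, fun z hz => ?_⟩
  rw [abs_mul]
  have h0 : 0 ≤ C := (abs_nonneg _).trans (hC z hz)
  exact mul_le_mul (hC z hz) (hD z hz) (abs_nonneg _) h0

theorem BC.const (c : ℝ) : BC (fun _ => c) :=
  ⟨continuousOn_const, |c|, fun _ _ => le_rfl⟩

theorem BC.pow {f : ℝ → ℝ} (hf : BC f) (n : ℕ) : BC (fun z => f z ^ n) := by
  obtain ⟨hfc, C, hC⟩ := hf
  refine ⟨hfc.pow n, C ^ n, fun z hz => ?_⟩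
  rw [abs_pow]
  exact pow_le_pow_left₀ (abs_nonneg _) (hC z hz) n

theorem BC.inv {f : ℝ → ℝ} (hf : BC f) {δ : ℝ} (hδ : 0 < δ) (h : ∀ z, 0 ≤ z → δ ≤ f z) :
    BC (fun z => (f z)⁻¹) := by
  obtain ⟨hfc, C, hC⟩ := hf
  refine ⟨hfc.inv₀ (fun z hz => (lt_of_lt_of_le hδ (h z hz)).ne'), δ⁻¹, fun z hz => ?_⟩
  have h1 : 0 < f z := lt_of_lt_of_le hδ (h z hz)
  rw [abs_of_pos (inv_pos.2 h1)]
  exact inv_anti₀ hδ (h z hz)

theorem BC.div {f g : ℝ → ℝ} (hf : BC f) (hg : BC g) {δ : ℝ} (hδ : 0 < δ)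
    (h : ∀ z, 0 ≤ z → δ ≤ g z) : BC (fun z => f z / g z) := by
  have := hf.mul (hg.inv hδ h)
  simpa only [div_eq_mul_inv] using this

theorem BC.abs {f : ℝ → ℝ} (hf : BC f) : BC (fun z => |f z|) := by
  obtain ⟨hfc, C, hC⟩ := hf
  refine ⟨hfc.abs, C, fun z hz => ?_⟩
  rw [abs_abs]; exact hC z hz

theorem integrableOn_exp_neg : IntegrableOn (fun z : ℝ => Real.exp (-z)) (Ioi 0) := by
  have := integrableOn_exp_neg_Ioi 0
  exact this

theorem BC.integrable {f : ℝ → ℝ} (hf : BC f) :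
    IntegrableOn (fun z => Real.exp (-z) * f z) (Ioi 0) := by
  obtain ⟨hfc, C, hC⟩ := hf
  have hm : AEStronglyMeasurable f (volume.restrict (Ioi 0)) :=
    (hfc.mono Ioi_subset_Ici_self).aestronglyMeasurable measurableSet_Ioi
  apply Integrable.mono' (g := fun z => Real.exp (-z) * C)
  · exact integrableOn_exp_neg.mul_const C
  · exact (Real.continuous_exp.comp continuous_neg).aestronglyMeasurable.mul hm
  · refine (ae_restrict_mem measurableSet_Ioi).mono (fun z hz => ?_)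
    rw [norm_mul, Real.norm_eq_abs, Real.norm_eq_abs, abs_of_pos (Real.exp_pos _)]
    exact mul_le_mul_of_nonneg_left (hC z (le_of_lt hz)) (Real.exp_pos _).le

/-- Integration by parts: `∫ e^{-z} (f' - f) = - f(0)`. -/
theorem integral_exp_deriv {f f' : ℝ → ℝ} (hf : BC f) (hf' : BC f')
    (hd : ∀ z, 0 < z → HasDerivAt f (f' z) z) :
    ∫ z in Ioi (0 : ℝ), Real.exp (-z) * (f' z - f z) = - f 0 := by
  have h := integral_Ioi_of_hasDerivAt_of_tendsto (a := (0 : ℝ)) (m := 0)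
    (f := fun z => Real.exp (-z) * f z) (f' := fun z => Real.exp (-z) * (f' z - f z))
    ?_ ?_ ?_ ?_
  · rw [h]; simp
  · have h1 : ContinuousOn (fun z => Real.exp (-z) * f z) (Ici 0) :=
      (by fun_prop : Continuous (fun z : ℝ => Real.exp (-z))).continuousOn.mul hf.1
    exact h1 0 (mem_Ici.2 le_rfl)
  · intro z hz
    have h1 : HasDerivAt (fun z : ℝ => Real.exp (-z)) (Real.exp (-z) * (-1)) z :=
      ((hasDerivAt_id z).neg).exp
    have h2 := h1.mul (hd z hz)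
    have h3 : Real.exp (-z) * (-1) * f z + Real.exp (-z) * f' z
        = Real.exp (-z) * (f' z - f z) := by ring
    rw [h3] at h2
    exact h2
  · exact (hf'.sub hf).integrable
  · obtain ⟨_, C, hC⟩ := hf
    have h0 : Tendsto (fun z : ℝ => Real.exp (-z) * C) atTop (nhds (0 * C)) :=
      (Real.tendsto_exp_neg_atTop_nhds_zero).mul_const C
    rw [zero_mul] at h0
    apply squeeze_zero_norm' _ h0
    filter_upwards [eventually_ge_atTop (0 : ℝ)] with z hz
    rw [norm_mul, Real.norm_eq_abs, Real.norm_eq_abs, abs_of_pos (Real.exp_pos _)]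
    exact mul_le_mul_of_nonneg_left (hC z hz) (Real.exp_pos _).le

/-- The pointwise estimate behind (P). -/
theorem pointwise {g x k s s1 s2 a c d n n1 ε : ℝ} (hx : 0 < x) (hk : 0 < k) (hs : 0 < s)
    (hs1 : 0 ≤ s1) (hs2 : s2 ≤ 0) (hm : s * k / x ≤ 1) 
    (hmL : 3 ≤ (2 + √3) * (s * k / x) + -(s * a / k))
    (hn1 : n1 ^ 2 ≤ d ^ 2) (hn0 : 0 ≤ n) (hnc : n ≤ |c|) (hnε : |c| ≤ n + ε) :
    -(ε * (|g| * |a * s1 * s + k * s1|)) ≤
      x * ((g * s + s1 * c) ^ 2 * (k / x) ^ 2 - 2 * g * s1 * c * (k / x) - s2 * c ^ 2 * (k / x)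
        + d ^ 2) - |g| * (k * s * n1) + |g| * ((k * s - a * s1 * s - k * s1) * n) := by
  set w := k / x with hw
  have hw0 : 0 < w := div_pos hk hx
  have hkw : k = x * w := by rw [hw]; field_simp
  set m := s * k / x with hmdef
  have hmw : m = s * w := by rw [hmdef, hw]; ring
  have hm0 : 0 < m := by rw [hmw]; positivity
  set L := -(s * a / k) with hLdef
  have hLk : L * k = -(a * s) := by rw [hLdef]; field_simp
  set G := |g| with hG
  have hG0 : 0 ≤ G := abs_nonneg g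
  have hGg : G ^ 2 = g ^ 2 := sq_abs g
  set q := |c| with hq
  have hq0 : 0 ≤ q := abs_nonneg c
  have hqc : q ^ 2 = c ^ 2 := sq_abs c
  set t := s1 * q * w with ht
  have ht0 : 0 ≤ t := by rw [ht]; positivity
  have h3 : (√3 : ℝ) ^ 2 = 3 := Real.sq_sqrt (by norm_num)
  -- quadratic form
  have hquad : 0 ≤ (3 / 4) * G ^ 2 * m ^ 2 - G * (3 - 2 * m - L) * t + t ^ 2 := by
    have h1 : G * (3 - 2 * m - L) * t ≤ G * (√3 * m) * t := by
      apply mul_le_mul_of_nonneg_right _ ht0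
      apply mul_le_mul_of_nonneg_left _ hG0
      linarith
    have h2 : 0 ≤ (√3 / 2 * (G * m) - t) ^ 2 := sq_nonneg _
    have h4 : (√3 / 2 * (G * m) - t) ^ 2
        = (3 / 4) * G ^ 2 * m ^ 2 - G * (√3 * m) * t + t ^ 2 := by
      have : (√3 / 2 * (G * m) - t) ^ 2
        = (√3 ^ 2 / 4) * G ^ 2 * m ^ 2 - G * (√3 * m) * t + t ^ 2 := by ring
      rw [this, h3]
    linarith
  -- first terms
  have hgc : -(G * q) ≤ -(g * c) := by
    have : g * c ≤ |g * c| := le_abs_self _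
    rw [abs_mul] at this
    linarith
  have hgc' : -(G * q) ≤ g * c := by
    have : -(g * c) ≤ |g * c| := neg_le_abs _
    rw [abs_mul] at this
    linarith
  have e1 : (g * s + s1 * c) ^ 2 * w ^ 2 - 2 * g * s1 * c * w
      = G ^ 2 * m ^ 2 + t ^ 2 - 2 * (1 - m) * (s1 * w) * (g * c) := by
    rw [hGg, hmw, ht]
    have : (s1 * q * w) ^ 2 = s1 ^ 2 * w ^ 2 * c ^ 2 := by rw [← hqc]; ring
    rw [this]; ring
  have e2 : -(2 * (1 - m) * G * t) ≤ - (2 * (1 - m) * (s1 * w) * (g * c)) := by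
    have h1 : 0 ≤ 2 * (1 - m) * (s1 * w) := by
      apply mul_nonneg _ (by positivity)
      linarith
    have h2 := mul_le_mul_of_nonneg_left hgc h1
    have h5 : 2 * (1 - m) * (s1 * w) * -(G * q) = -(2 * (1 - m) * G * t) := by rw [ht]; ring
    linarith
  have e3 : G * m * n1 - G ^ 2 * m ^ 2 / 4 ≤ d ^ 2 := by
    nlinarith [sq_nonneg (n1 - G * m / 2)]
  have e4 : 0 ≤ -(s2 * c ^ 2 * w) := by
    have : s2 * c ^ 2 * w ≤ 0 :=
      mul_nonpos_of_nonpos_of_nonneg (mul_nonpos_of_nonpos_of_nonneg hs2 (sq_nonneg _)) hw0.le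
    linarith
  have hxm : x * m = k * s := by rw [hmw, hkw]; ring
  -- the part with `n`
  have e5 : G * ((L - 1) * (x * t)) - ε * (G * |a * s1 * s + k * s1|)
      ≤ G * ((k * s - a * s1 * s - k * s1) * n) := by
    have h1 : (k * s - a * s1 * s - k * s1) * n = k * s * n + -(a * s1 * s + k * s1) * n := by ring
    have h2 : x * t = k * s1 * q := by rw [ht, hkw]; ring
    have h6 : (L - 1) * (x * t) = -(a * s1 * s + k * s1) * q := by
      rw [h2]
      have : (L - 1) * (k * s1 * q) = (L * k) * s1 * q - k * s1 * q := by ring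
      rw [this, hLk]; ring
    rw [h1, h6]
    have h7 : -(a * s1 * s + k * s1) * q - ε * |a * s1 * s + k * s1|
        ≤ -(a * s1 * s + k * s1) * n := by
      have h8 : -(a * s1 * s + k * s1) * (q - n) ≤ |a * s1 * s + k * s1| * (q - n) := by
        apply mul_le_mul_of_nonneg_right (neg_le_abs _)
        linarith
      have h9 : |a * s1 * s + k * s1| * (q - n) ≤ |a * s1 * s + k * s1| * ε := by
        apply mul_le_mul_of_nonneg_left _ (abs_nonneg _)
        linarith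
      have h14 : -(a * s1 * s + k * s1) * (q - n)
          = -(a * s1 * s + k * s1) * q - -(a * s1 * s + k * s1) * n := by ring
      have h15 : |a * s1 * s + k * s1| * ε = ε * |a * s1 * s + k * s1| := mul_comm _ _
      linarith
    have h10 : 0 ≤ k * s * n := by positivity
    have h11 : -(a * s1 * s + k * s1) * q - ε * |a * s1 * s + k * s1|
        ≤ k * s * n + -(a * s1 * s + k * s1) * n := by linarith
    have h12 := mul_le_mul_of_nonneg_left h11 hG0
    have h13 : G * (-(a * s1 * s + k * s1) * q - ε * |a * s1 * s + k * s1|)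
        = G * (-(a * s1 * s + k * s1) * q) - ε * (G * |a * s1 * s + k * s1|) := by ring
    rw [h13] at h12
    exact h12
  have e6 : x * (G * m * n1) = G * (k * s * n1) := by
    rw [← hxm]; ring
  have e7 : x * (G ^ 2 * m ^ 2 + t ^ 2 - 2 * (1 - m) * G * t + G * m * n1 - G ^ 2 * m ^ 2 / 4)
      ≤ x * ((g * s + s1 * c) ^ 2 * w ^ 2 - 2 * g * s1 * c * w - s2 * c ^ 2 * w + d ^ 2) := by
    apply mul_le_mul_of_nonneg_left _ hx.le
    linarith
  have e8 : 0 ≤ x * ((3 / 4) * G ^ 2 * m ^ 2 - G * (3 - 2 * m - L) * t + t ^ 2) :=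
    mul_nonneg hx.le hquad
  have e9 : x * (G ^ 2 * m ^ 2 + t ^ 2 - 2 * (1 - m) * G * t + G * m * n1 - G ^ 2 * m ^ 2 / 4)
      = x * ((3 / 4) * G ^ 2 * m ^ 2 - G * (3 - 2 * m - L) * t + t ^ 2)
        - G * ((L - 1) * (x * t)) + x * (G * m * n1) := by ring
  rw [e9, e6] at e7
  linarith

end Pool.Agent.Lib.MP_2d002d_gt.PM.H70
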