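import Pool.Agent.Lib.MP_2d002d_gt.PM.H70.P2

/-!
PM, module (P): the integral inequality (section 4 of the paper).
-/

set_option autoImplicit false

namespace Pool.Agent.Lib.MP_2d002d_gt.PM.H70

open MeasureTheory Set Filter

theorem sqrt_le_abs_add (x ε : ℝ) (hε : 0 < ε) : √(x ^ 2 + ε ^ 2) ≤ |x| + ε := by
  have h0 : 0 ≤ |x| + ε := by positivity
  rw [Real.sqrt_le_left h0]
  have := sq_abs x
  nlinarith [abs_nonneg x]

theorem abs_le_sqrt' (x ε : ℝ) : |x| ≤ √(x ^ 2 + ε ^ 2) := by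
  apply Real.abs_le_sqrt
  nlinarith [sq_nonneg ε]

theorem le_sqrt' (x ε : ℝ) (hε : 0 < ε) : ε ≤ √(x ^ 2 + ε ^ 2) := by
  apply Real.le_sqrt_of_sq_le
  nlinarith [sq_nonneg x]

theorem BC.sqrt' {c : ℝ → ℝ} (hc : BC c) {ε : ℝ} (hε : 0 < ε) :
    BC (fun z => √(c z ^ 2 + ε ^ 2)) := by
  obtain ⟨hcc, C, hC⟩ := hc
  refine ⟨((hcc.pow 2).add continuousOn_const).sqrt, C + ε, fun z hz => ?_⟩
  rw [abs_of_nonneg (Real.sqrt_nonneg _)]
  have := sqrt_le_abs_add (c z) ε hε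
  have := hC z hz
  linarith

/-- The integral inequality, in terms of functions of `z`. -/
theorem P_integral {γ δ : ℝ} {S S1 S2 K a F c c1 : ℝ → ℝ}
    (hS : BC S) (hS1 : BC S1) (hS2 : BC S2) (hK : BC K) (ha : BC a) (hF : BC F)
    (hc : BC c) (hc1 : BC c1)
    (hSd : ∀ z, 0 < z → HasDerivAt S (S1 z) z)
    (hKd : ∀ z, 0 < z → HasDerivAt K (a z * S1 z) z)
    (hcd : ∀ z, 0 < z → HasDerivAt c (c1 z) z) (hc0 : c 0 = 0)
    (hSpos : ∀ z, 0 ≤ z → 0 < S z) (hKpos : ∀ z, 0 ≤ z → 0 < K z)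
    (hδ : 0 < δ) (hFδ : ∀ z, 0 ≤ z → δ ≤ F z)
    (hS1n : ∀ z, 0 ≤ z → 0 ≤ S1 z) (hS2n : ∀ z, 0 ≤ z → S2 z ≤ 0)
    (hm : ∀ z, 0 ≤ z → S z * K z / F z ≤ 1)
    (hmL : ∀ z, 0 ≤ z → 3 ≤ (2 + √3) * (S z * K z / F z) + -(S z * a z / K z)) :
    0 ≤ ∫ z in Ioi (0 : ℝ), Real.exp (-z) * (F z * ((γ * S z + S1 z * c z) ^ 2 * (K z / F z) ^ 2
      - 2 * γ * S1 z * c z * (K z / F z) - S2 z * c z ^ 2 * (K z / F z) + c1 z ^ 2)) := by
  set P : ℝ → ℝ := fun z => F z * ((γ * S z + S1 z * c z) ^ 2 * (K z / F z) ^ 2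
      - 2 * γ * S1 z * c z * (K z / F z) - S2 z * c z ^ 2 * (K z / F z) + c1 z ^ 2) with hPdef
  have hKF : BC (fun z => K z / F z) := hK.div hF hδ hFδ
  have hP : BC P := by
    have h1 : BC (fun z => γ * S z + S1 z * c z) := ((BC.const γ).mul hS).add (hS1.mul hc)
    have h2 : BC (fun z => 2 * γ * S1 z * c z * (K z / F z)) :=
      (((BC.const (2 * γ)).mul hS1).mul hc).mul hKF
    have h3 : BC (fun z => S2 z * c z ^ 2 * (K z / F z)) := (hS2.mul (hc.pow 2)).mul hKF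
    exact hF.mul (((((h1.pow 2).mul (hKF.pow 2)).sub h2).sub h3).add (hc1.pow 2))
  have hE : BC (fun z => |γ| * |a z * S1 z * S z + K z * S1 z|) :=
    (BC.const |γ|).mul (((ha.mul hS1).mul hS).add (hK.mul hS1)).abs
  obtain ⟨_, C, hC⟩ := hE
  have hexp1 : ∫ z in Ioi (0 : ℝ), Real.exp (-z) = 1 := by
    simpa using integral_exp_neg_Ioi 0
  -- the estimate with an error `ε`
  have key : ∀ ε : ℝ, 0 < ε → -(ε * C) ≤ ∫ z in Ioi (0 : ℝ), Real.exp (-z) * P z := by
    intro ε hε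
    set N : ℝ → ℝ := fun z => √(c z ^ 2 + ε ^ 2) - ε with hN
    set N1 : ℝ → ℝ := fun z => c z * c1 z / √(c z ^ 2 + ε ^ 2) with hN1
    have hsq := hc.sqrt' hε
    have hNbc : BC N := hsq.sub (BC.const ε)
    have hN1bc : BC N1 := (hc.mul hc1).div hsq hε (fun z _ => le_sqrt' (c z) ε hε)
    have hNd : ∀ z, 0 < z → HasDerivAt N (N1 z) z := by
      intro z hz
      have h1 : HasDerivAt (fun z => c z ^ 2 + ε ^ 2) (2 * c z * c1 z) z := by
        have := ((hcd z hz).pow 2).add_const (ε ^ 2)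
        simpa using this
      have h2 : c z ^ 2 + ε ^ 2 ≠ 0 := by positivity
      have h3 := (h1.sqrt h2).sub_const ε
      have h4 : 2 * c z * c1 z / (2 * √(c z ^ 2 + ε ^ 2)) = N1 z := by
        rw [hN1]
        have : 0 < √(c z ^ 2 + ε ^ 2) := Real.sqrt_pos.2 (by positivity)
        field_simp
      rw [h4] at h3
      exact h3
    have hN0 : N 0 = 0 := by
      rw [hN]
      simp only [hc0]
      rw [show (0 : ℝ) ^ 2 + ε ^ 2 = ε ^ 2 by ring, Real.sqrt_sq hε.le, sub_self]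
    -- integration by parts
    have hf : BC (fun z => K z * S z * N z) := (hK.mul hS).mul hNbc
    have hf' : BC (fun z => (a z * S1 z * S z + K z * S1 z) * N z + K z * S z * N1 z) :=
      ((((ha.mul hS1).mul hS).add (hK.mul hS1)).mul hNbc).add ((hK.mul hS).mul hN1bc)
    have hparts := integral_exp_deriv hf hf' (fun z hz =>
      ((hKd z hz).mul (hSd z hz)).mul (hNd z hz))
    rw [hN0, mul_zero, neg_zero] at hparts
    have hsub : BC (fun z => ((a z * S1 z * S z + K z * S1 z) * N z + K z * S z * N1 z)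
        - K z * S z * N z) := hf'.sub hf
    -- pointwise estimate
    have hpt : ∀ z, 0 ≤ z → -(ε * C) ≤ P z
        - |γ| * (((a z * S1 z * S z + K z * S1 z) * N z + K z * S z * N1 z) - K z * S z * N z) := by
      intro z hz
      have hFz : 0 < F z := lt_of_lt_of_le hδ (hFδ z hz)
      have hsqpos : 0 < √(c z ^ 2 + ε ^ 2) := Real.sqrt_pos.2 (by positivity)
      have hn1 : N1 z ^ 2 ≤ c1 z ^ 2 := by
        simp only [hN1]
        rw [div_pow, Real.sq_sqrt (by positivity), div_le_iff₀ (by positivity)]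
        nlinarith [mul_nonneg (sq_nonneg (c1 z)) (sq_nonneg ε)]
      have hn0 : 0 ≤ N z := by
        have := le_sqrt' (c z) ε hε
        simp only [hN]; linarith
      have hnc : N z ≤ |c z| := by
        have := sqrt_le_abs_add (c z) ε hε
        simp only [hN]; linarith
      have hnε : |c z| ≤ N z + ε := by
        have := abs_le_sqrt' (c z) ε
        simp only [hN]; linarith
      have h := pointwise (g := γ) (x := F z) (k := K z) (s := S z) (s1 := S1 z) (s2 := S2 z)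
        (a := a z) (c := c z) (d := c1 z) (n := N z) (n1 := N1 z) (ε := ε) hFz (hKpos z hz)
        (hSpos z hz) (hS1n z hz) (hS2n z hz) (hm z hz) (hmL z hz) hn1 hn0 hnc hnε
      have hCz : |γ| * |a z * S1 z * S z + K z * S1 z| ≤ C := by
        have := hC z hz
        rwa [abs_of_nonneg (by positivity)] at this
      have h2 : -(ε * C) ≤ -(ε * (|γ| * |a z * S1 z * S z + K z * S1 z|)) := by
        have := mul_le_mul_of_nonneg_left hCz hε.le
        linarith
      refine h2.trans (h.trans (le_of_eq ?_))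
      simp only [hPdef]
      ring
    have hint1 := hP.integrable
    have hint2 := hsub.integrable
    have hsplit : ∫ z in Ioi (0 : ℝ), Real.exp (-z) * (P z
        - |γ| * (((a z * S1 z * S z + K z * S1 z) * N z + K z * S z * N1 z) - K z * S z * N z))
        = ∫ z in Ioi (0 : ℝ), Real.exp (-z) * P z := by
      have h1 : (fun z => Real.exp (-z) * (P z
        - |γ| * (((a z * S1 z * S z + K z * S1 z) * N z + K z * S z * N1 z) - K z * S z * N z)))
        = fun z => Real.exp (-z) * P z - |γ| * (Real.exp (-z) *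
          (((a z * S1 z * S z + K z * S1 z) * N z + K z * S z * N1 z) - K z * S z * N z)) := by
        funext z; ring
      rw [h1, integral_sub hint1 (hint2.const_mul _), integral_const_mul, hparts, mul_zero,
        sub_zero]
    rw [← hsplit]
    have hconst : ∫ z in Ioi (0 : ℝ), Real.exp (-z) * (-(ε * C)) = -(ε * C) := by
      rw [integral_mul_const, hexp1, one_mul]
    rw [← hconst]
    apply setIntegral_mono_on (integrableOn_exp_neg.mul_const _)
      (hP.sub ((BC.const |γ|).mul hsub)).integrable measurableSet_Ioi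
    intro z hz
    exact mul_le_mul_of_nonneg_left (hpt z (le_of_lt hz)) (Real.exp_pos _).le
  -- let `ε → 0`
  have hC0 : 0 ≤ C := (abs_nonneg _).trans (hC 0 le_rfl)
  by_contra hcon
  push Not at hcon
  set I := ∫ z in Ioi (0 : ℝ), Real.exp (-z) * P z with hI
  have h1 := key (-I / (2 * (C + 1))) (by
    apply div_pos (by linarith) (by linarith))
  have h2 : -I / (2 * (C + 1)) * C ≤ -I / 2 := by
    rw [div_mul_eq_mul_div, div_le_div_iff₀ (by linarith) (by norm_num)]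
    nlinarith
  linarith

/-- Module (P) of the paper. -/
theorem P_main {κ κ' Φ S S1 S2 c c1 : ℝ → ℝ} {γ s0 R : ℝ}
    (hs0 : 0 < s0) (hSlow : ∀ z, 0 ≤ z → s0 ≤ S z) (hSup : ∀ z, 0 ≤ z → S z ≤ R)
    (hSc : ContinuousOn S (Ici 0)) (hS1 : BC S1) (hS2 : BC S2)
    (hc : BC c) (hc1 : BC c1)
    (hSd : ∀ z, 0 < z → HasDerivAt S (S1 z) z)
    (hcd : ∀ z, 0 < z → HasDerivAt c (c1 z) z) (hc0 : c 0 = 0)
    (hS1n : ∀ z, 0 ≤ z → 0 ≤ S1 z) (hS2n : ∀ z, 0 ≤ z → S2 z ≤ 0)
    (hκpos : ∀ x, 0 < x → 0 < κ x) (hanti : AntitoneOn κ (Ioi 0))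
    (hlc : ConcaveOn ℝ (Ioi 0) (fun x => Real.log (κ x)))
    (hκd : ∀ x, 0 < x → HasDerivAt κ (κ' x) x) (hκ'c : ContinuousOn κ' (Ioi 0))
    (hΦc : ContinuousOn Φ (Ioi 0)) (hΦ : ∀ W, 0 < W → Φ W = ∫ x in (0 : ℝ)..W, κ x)
    (hint : ∀ W, 0 < W → IntervalIntegrable κ volume 0 W) :
    0 ≤ ∫ z in Ioi (0 : ℝ), Real.exp (-z) * (Φ (S z) *
      ((γ * S z + S1 z * c z) ^ 2 * (κ (S z) / Φ (S z)) ^ 2
      - 2 * γ * S1 z * c z * (κ (S z) / Φ (S z)) - S2 z * c z ^ 2 * (κ (S z) / Φ (S z))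
      + c1 z ^ 2)) := by
  have hpos : ∀ z, 0 ≤ z → 0 < S z := fun z hz => lt_of_lt_of_le hs0 (hSlow z hz)
  have hmaps : MapsTo S (Ici 0) (Icc s0 R) := fun z hz => ⟨hSlow z hz, hSup z hz⟩
  have hsub : Icc s0 R ⊆ Ioi (0 : ℝ) := fun x hx => lt_of_lt_of_le hs0 hx.1
  have comp_BC : ∀ f : ℝ → ℝ, ContinuousOn f (Ioi 0) → BC (fun z => f (S z)) := by
    intro f hf
    have hf' : ContinuousOn f (Icc s0 R) := hf.mono hsub
    refine ⟨hf'.comp hSc hmaps, ?_⟩
    obtain ⟨C, hC⟩ := isCompact_Icc.exists_bound_of_continuousOn hf'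
    exact ⟨C, fun z hz => by simpa using hC (S z) (hmaps hz)⟩
  have hκc : ContinuousOn κ (Ioi 0) := fun x hx => (hκd x hx).continuousAt.continuousWithinAt
  have hK := comp_BC κ hκc
  have ha := comp_BC κ' hκ'c
  have hF := comp_BC Φ hΦc
  have hSbc : BC S := by
    have := comp_BC id continuousOn_id
    simpa using this
  have hmb := fun W (hW : 0 < W) => m_bounds hκpos hanti hlc hW (hκd W hW) (hΦ W hW) (hint W hW)
  have hΦpos : 0 < Φ s0 := (hmb s0 hs0).1
  have hΦmono : ∀ z, 0 ≤ z → Φ s0 ≤ Φ (S z) := by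
    intro z hz
    have h1 : IntervalIntegrable κ volume s0 (S z) :=
      (hint s0 hs0).symm.trans (hint (S z) (hpos z hz))
    have h2 : (∫ x in (0 : ℝ)..s0, κ x) + ∫ x in s0..(S z), κ x = ∫ x in (0 : ℝ)..(S z), κ x :=
      intervalIntegral.integral_add_adjacent_intervals (hint s0 hs0) h1
    have h3 : 0 ≤ ∫ x in s0..(S z), κ x := by
      apply intervalIntegral.integral_nonneg (hSlow z hz)
      intro x hx
      exact (hκpos x (lt_of_lt_of_le hs0 hx.1)).le
    rw [hΦ s0 hs0, hΦ (S z) (hpos z hz)]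
    linarith
  exact P_integral (F := fun z => Φ (S z)) (K := fun z => κ (S z)) (a := fun z => κ' (S z))
    hSbc hS1 hS2 hK ha hF hc hc1 hSd
    (fun z hz => (hκd (S z) (hpos z hz.le)).comp z (hSd z hz)) hcd hc0 hpos
    (fun z hz => hκpos _ (hpos z hz)) hΦpos hΦmono hS1n hS2n
    (fun z hz => (hmb (S z) (hpos z hz)).2.1)
    (fun z hz => (hmb (S z) (hpos z hz)).2.2.2)

end Pool.Agent.Lib.MP_2d002d_gt.PM.H70
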