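import Pool.Agent.Lib.MP_2d002d_gt.PM.Interfaces
import Pool.Agent.Lib.MP_2d002d_gt.PM.H70.P3

/-!
PM, module PPT: the pointwise inequality.
-/

set_option autoImplicit false

namespace Pool.Agent.Lib.MP_2d002d_gt.PM.H70

open MeasureTheory Set Filter

theorem ppt : PPT_S := by
  intro S S1 S2 F k k1 w c c1 q q1 γ ε hS hS1 hS2 hF hk hW hq hqc hcq hq1
  obtain ⟨hk0, hxk, hk1, hwall⟩ := hW
  have hwk : k / F = w := by rw [hk]; field_simp
  set L : ℝ := -(S * k1 / k) with hL
  have hL0 : 0 ≤ L := by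
    have : S * k1 / k ≤ 0 :=
      div_nonpos_of_nonpos_of_nonneg (mul_nonpos_of_nonneg_of_nonpos hS.le hk1) hk0.le
    linarith
  have hs3 : 0 ≤ √3 := Real.sqrt_nonneg 3
  have hm0 : 0 < S * k / F := div_pos (mul_pos hS hk0) hF
  have hmL : 3 ≤ (2 + √3) * (S * k / F) + L := by
    have h1 : (2 + √3) * (S * k / F) + L = ((2 + √3) * S * k ^ 2 - S * k1 * F) / (k * F) := by
      rw [hL]; field_simp; ring
    rw [h1, le_div_iff₀ (mul_pos hk0 hF)]
    linarith
  set L' : ℝ := min L 3 with hL'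
  have hL'0 : 0 ≤ L' := le_min hL0 (by norm_num)
  have hL'3 : L' ≤ 3 := min_le_right _ _
  have hL'L : L' ≤ L := min_le_left _ _
  have hmL' : 3 ≤ (2 + √3) * (S * k / F) + L' := by
    rcases min_choice L 3 with h | h
    · rw [hL', h]; exact hmL
    · rw [hL', h]
      nlinarith [mul_nonneg (by linarith : (0 : ℝ) ≤ 2 + √3) hm0.le]
  set a : ℝ := -(L' * k / S) with ha
  have haL : -(S * a / k) = L' := by
    rw [ha]; field_simp
  have hak : k1 ≤ a := by
    have h1 : k1 = -(L * k / S) := by rw [hL]; field_simp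
    rw [h1, ha]
    have : L' * k / S ≤ L * k / S := by
      apply div_le_div_of_nonneg_right _ hS.le
      exact mul_le_mul_of_nonneg_right hL'L hk0.le
    linarith
  have haS : a * S = -(L' * k) := by rw [ha]; field_simp
  have h := pointwise (g := γ) (x := F) (k := k) (s := S) (s1 := S1) (s2 := S2) (a := a) (c := c)
    (d := c1) (n := q) (n1 := q1) (ε := ε) hF hk0 hS hS1 hS2 ((div_le_one hF).2 hxk)
    (by rw [haL]; exact hmL') (sq_le_sq.2 hq1) hq hqc hcq
  rw [hwk] at h
  have hε : 0 ≤ ε := by linarith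
  have habs : |a * S1 * S + k * S1| ≤ 2 * (k * S1) := by
    have h1 : a * S1 * S + k * S1 = (1 - L') * (k * S1) := by
      have : a * S1 * S = (a * S) * S1 := by ring
      rw [this, haS]; ring
    rw [h1, abs_mul, abs_of_nonneg (mul_nonneg hk0.le hS1)]
    apply mul_le_mul_of_nonneg_right _ (mul_nonneg hk0.le hS1)
    rw [abs_le]; constructor <;> linarith
  have hg : 0 ≤ |γ| := abs_nonneg γ
  have h2 : ε * (|γ| * |a * S1 * S + k * S1|) ≤ 2 * |γ| * ε * k * S1 := by
    have h3 := mul_le_mul_of_nonneg_left (mul_le_mul_of_nonneg_left habs hg) hε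
    have h4 : ε * (|γ| * (2 * (k * S1))) = 2 * |γ| * ε * k * S1 := by ring
    linarith
  have h5 : |γ| * ((k * S - a * S1 * S - k * S1) * q) ≤
      |γ| * ((k * S - k1 * S1 * S - k * S1) * q) := by
    apply mul_le_mul_of_nonneg_left _ hg
    apply mul_le_mul_of_nonneg_right _ hq
    have : k1 * (S1 * S) ≤ a * (S1 * S) := mul_le_mul_of_nonneg_right hak (mul_nonneg hS1 hS.le)
    nlinarith
  have h6 : |γ| * (k * S * q1 - q * (k * S - S1 * (S * k1 + k)))
      = |γ| * (k * S * q1) - |γ| * ((k * S - k1 * S1 * S - k * S1) * q) := by ring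
  rw [h6]
  linarith

/-- Module P from PPT. -/
theorem p (hppt : PPT_S) : P_S := by
  intro S S1 S2 F k k1 w c c1 γ hSS hS2 hF hkk hk1 hw hcc hc0 hall hwall
  obtain ⟨hS, hS1, hSd⟩ := hSS
  obtain ⟨hk, -, hkd⟩ := hkk
  obtain ⟨hc, hc1, hcd⟩ := hcc
  have bS : BC S := hS
  have bS1 : BC S1 := hS1
  have bS2 : BC S2 := hS2
  have bF : BC F := hF
  have bk : BC k := hk
  have bk1 : BC k1 := hk1
  have bw : BC w := hw
  have bc : BC c := hc
  have bc1 : BC c1 := hc1
  set P : ℝ → ℝ := fun z => F z * ((γ * S z + S1 z * c z) ^ 2 * w z ^ 2 -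
      2 * γ * S1 z * c z * w z - S2 z * c z ^ 2 * w z + c1 z ^ 2) with hPdef
  have hP : BC P := by
    have h1 : BC (fun z => γ * S z + S1 z * c z) := ((BC.const γ).mul bS).add (bS1.mul bc)
    have h2 : BC (fun z => 2 * γ * S1 z * c z * w z) :=
      (((BC.const (2 * γ)).mul bS1).mul bc).mul bw
    have h3 : BC (fun z => S2 z * c z ^ 2 * w z) := (bS2.mul (bc.pow 2)).mul bw
    exact bF.mul (((((h1.pow 2).mul (bw.pow 2)).sub h2).sub h3).add (bc1.pow 2))
  have hE : BC (fun z => 2 * |γ| * k z * S1 z) := ((BC.const (2 * |γ|)).mul bk).mul bS1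
  obtain ⟨_, C, hC⟩ := hE
  have hexp1 : ∫ z in Ioi (0 : ℝ), Real.exp (-z) = 1 := by
    simpa using integral_exp_neg_Ioi 0
  have key : ∀ ε : ℝ, 0 < ε → -(ε * C) ≤ ∫ z in Ioi (0 : ℝ), Real.exp (-z) * P z := by
    intro ε hε
    set N : ℝ → ℝ := fun z => √(c z ^ 2 + ε ^ 2) - ε with hN
    set N1 : ℝ → ℝ := fun z => c z * c1 z / √(c z ^ 2 + ε ^ 2) with hN1
    have hsq := bc.sqrt' hε
    have hNbc : BC N := hsq.sub (BC.const ε)
    have hN1bc : BC N1 := (bc.mul bc1).div hsq hε (fun z _ => le_sqrt' (c z) ε hε)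
    have hNd : ∀ z, 0 < z → HasDerivAt N (N1 z) z := by
      intro z hz
      have h1 : HasDerivAt (fun z => c z ^ 2 + ε ^ 2) (2 * c z * c1 z) z := by
        have := ((hcd z hz).pow 2).add_const (ε ^ 2)
        simpa using this
      have h2 : c z ^ 2 + ε ^ 2 ≠ 0 := by positivity
      have h3 := (h1.sqrt h2).sub_const ε
      have h4 : 2 * c z * c1 z / (2 * √(c z ^ 2 + ε ^ 2)) = N1 z := by
        rw [hN1]
        have : 0 < √(c z ^ 2 + ε ^ 2) := Real.sqrt_pos.2 (by positivity)
        field_simp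
      rw [h4] at h3
      exact h3
    have hN0 : N 0 = 0 := by
      rw [hN]
      simp only [hc0]
      rw [show (0 : ℝ) ^ 2 + ε ^ 2 = ε ^ 2 by ring, Real.sqrt_sq hε.le, sub_self]
    have hf : BC (fun z => k z * S z * N z) := (bk.mul bS).mul hNbc
    have hf' : BC (fun z => (k1 z * S1 z * S z + k z * S1 z) * N z + k z * S z * N1 z) :=
      ((((bk1.mul bS1).mul bS).add (bk.mul bS1)).mul hNbc).add ((bk.mul bS).mul hN1bc)
    have hparts := integral_exp_deriv hf hf' (fun z hz =>
      ((hkd z hz).mul (hSd z hz)).mul (hNd z hz))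
    rw [hN0, mul_zero, neg_zero] at hparts
    have hsub : BC (fun z => ((k1 z * S1 z * S z + k z * S1 z) * N z + k z * S z * N1 z)
        - k z * S z * N z) := hf'.sub hf
    have hpt : ∀ z, 0 ≤ z → -(ε * C) ≤ P z
        - |γ| * (((k1 z * S1 z * S z + k z * S1 z) * N z + k z * S z * N1 z)
          - k z * S z * N z) := by
      intro z hz
      obtain ⟨hSz, hS1z, hS2z, hFz, hkz⟩ := hall z hz
      have hsqpos : 0 < √(c z ^ 2 + ε ^ 2) := Real.sqrt_pos.2 (by positivity)
      have hn1 : |N1 z| ≤ |c1 z| := by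
        apply sq_le_sq.1
        simp only [hN1]
        rw [div_pow, Real.sq_sqrt (by positivity), div_le_iff₀ (by positivity)]
        nlinarith [mul_nonneg (sq_nonneg (c1 z)) (sq_nonneg ε)]
      have hn0 : 0 ≤ N z := by
        have := le_sqrt' (c z) ε hε
        simp only [hN]; linarith
      have hnc : N z ≤ |c z| := by
        have := sqrt_le_abs_add (c z) ε hε
        simp only [hN]; linarith
      have hnε : |c z| ≤ N z + ε := by
        have := abs_le_sqrt' (c z) ε
        simp only [hN]; linarith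
      have h := hppt (S z) (S1 z) (S2 z) (F z) (k z) (k1 z) (w z) (c z) (c1 z) (N z) (N1 z) γ ε
        hSz hS1z hS2z hFz hkz (hwall z hz) hn0 hnc hnε hn1
      have hCz : 2 * |γ| * k z * S1 z ≤ C := (le_abs_self _).trans (hC z hz)
      have h2 : 2 * |γ| * ε * k z * S1 z ≤ ε * C := by
        have := mul_le_mul_of_nonneg_left hCz hε.le
        linarith
      have h3 : |γ| * (((k1 z * S1 z * S z + k z * S1 z) * N z + k z * S z * N1 z)
          - k z * S z * N z) = |γ| * (k z * S z * N1 z - N z * (k z * S z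
          - S1 z * (S z * k1 z + k z))) := by ring
      rw [h3]
      simp only [hPdef]
      linarith
    have hint1 := hP.integrable
    have hint2 := hsub.integrable
    have hsplit : ∫ z in Ioi (0 : ℝ), Real.exp (-z) * (P z
        - |γ| * (((k1 z * S1 z * S z + k z * S1 z) * N z + k z * S z * N1 z) - k z * S z * N z))
        = ∫ z in Ioi (0 : ℝ), Real.exp (-z) * P z := by
      have h1 : (fun z => Real.exp (-z) * (P z
        - |γ| * (((k1 z * S1 z * S z + k z * S1 z) * N z + k z * S z * N1 z) - k z * S z * N z)))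
        = fun z => Real.exp (-z) * P z - |γ| * (Real.exp (-z) *
          (((k1 z * S1 z * S z + k z * S1 z) * N z + k z * S z * N1 z) - k z * S z * N z)) := by
        funext z; ring
      rw [h1, integral_sub hint1 (hint2.const_mul _), integral_const_mul, hparts, mul_zero,
        sub_zero]
    rw [← hsplit]
    have hconst : ∫ z in Ioi (0 : ℝ), Real.exp (-z) * (-(ε * C)) = -(ε * C) := by
      rw [integral_mul_const, hexp1, one_mul]
    rw [← hconst]
    apply setIntegral_mono_on (integrableOn_exp_neg.mul_const _)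
      (hP.sub ((BC.const |γ|).mul hsub)).integrable measurableSet_Ioi
    intro z hz
    exact mul_le_mul_of_nonneg_left (hpt z (le_of_lt hz)) (Real.exp_pos _).le
  have hC0 : 0 ≤ C := (abs_nonneg _).trans (hC 0 le_rfl)
  by_contra hcon
  push Not at hcon
  set I := ∫ z in Ioi (0 : ℝ), Real.exp (-z) * P z with hI
  have h1 := key (-I / (2 * (C + 1))) (by
    apply div_pos (by linarith) (by linarith))
  have h2 : -I / (2 * (C + 1)) * C ≤ -I / 2 := by
    rw [div_mul_eq_mul_div, div_le_div_iff₀ (by linarith) (by norm_num)]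
    nlinarith
  linarith

end Pool.Agent.Lib.MP_2d002d_gt.PM.H70
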