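import Mathlib

/-!
PM, module (P), first half: the pointwise inequalities `m ≤ 1` and `(2 + √3) m + Λ ≥ 3` for a
positive, nonincreasing, log-concave function `κ` with primitive `Φ`, where
`m = W κ(W) / Φ(W)` and `Λ = - W κ'(W) / κ(W)`.
-/

set_option autoImplicit false

namespace Pool.Agent.Lib.MP_2d002d_gt.PM.H70

open MeasureTheory Set Filter

theorem exp_one_lt : Real.exp 1 < 1 + √3 := by
  have h1 := Real.exp_one_lt_d9
  have h2 : (1.732 : ℝ) < √3 := by
    apply Real.lt_sqrt_of_sq_lt
    norm_num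
  linarith

/-- `(2 - x) e^x ≤ e`. -/
theorem two_sub_mul_exp (x : ℝ) : (2 - x) * Real.exp x ≤ Real.exp 1 := by
  have h1 : (1 - x) + 1 ≤ Real.exp (1 - x) := Real.add_one_le_exp _
  have h2 : (2 - x) * Real.exp x ≤ Real.exp (1 - x) * Real.exp x := by
    apply mul_le_mul_of_nonneg_right _ (Real.exp_pos x).le
    linarith
  rw [← Real.exp_add] at h2
  have h3 : 1 - x + x = 1 := by ring
  rw [h3] at h2
  exact h2

/-- `g(x) = 3 + (1 + √3) x - (3 - x) e^x ≥ 0` for `x ≥ 0`. -/
theorem g_nonneg (x : ℝ) (hx : 0 ≤ x) : 0 ≤ 3 + (1 + √3) * x - (3 - x) * Real.exp x := by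
  have hmono : MonotoneOn (fun x : ℝ => 3 + (1 + √3) * x - (3 - x) * Real.exp x) (Ici 0) := by
    apply monotoneOn_of_deriv_nonneg (convex_Ici 0)
    · fun_prop
    · fun_prop
    · intro y _
      have h : HasDerivAt (fun x : ℝ => 3 + (1 + √3) * x - (3 - x) * Real.exp x)
          (0 + (1 + √3) * 1 - ((0 - 1) * Real.exp y + (3 - y) * Real.exp y)) y := by
        apply HasDerivAt.sub
        · apply HasDerivAt.add (hasDerivAt_const _ _)
          exact (hasDerivAt_id y).const_mul _
        · apply HasDerivAt.mul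
          · exact (hasDerivAt_const _ _).sub (hasDerivAt_id y)
          · exact Real.hasDerivAt_exp y
      rw [h.deriv]
      have h1 := two_sub_mul_exp y
      have h2 := exp_one_lt
      nlinarith
  have h := hmono (mem_Ici.2 le_rfl) (mem_Ici.2 hx) hx
  simp only [mul_zero, add_zero, sub_zero, Real.exp_zero, mul_one, sub_self] at h
  exact h

/-- The tangent line inequality of a log-concave function. -/
theorem tangent {κ : ℝ → ℝ} {W d : ℝ} (hpos : ∀ x, 0 < x → 0 < κ x)
    (hlc : ConcaveOn ℝ (Ioi 0) (fun x => Real.log (κ x))) (hW : 0 < W)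
    (hd : HasDerivAt κ d W) (x : ℝ) (hx : 0 < x) :
    κ x ≤ κ W * Real.exp (d / κ W * (x - W)) := by
  have hdl : HasDerivAt (fun x => Real.log (κ x)) (d / κ W) W := hd.log (hpos W hW).ne'
  have key : Real.log (κ x) ≤ Real.log (κ W) + d / κ W * (x - W) := by
    rcases lt_trichotomy x W with h | h | h
    · have := hlc.le_slope_of_hasDerivAt (mem_Ioi.2 hx) (mem_Ioi.2 hW) h hdl
      rw [slope_def_field, le_div_iff₀ (by linarith)] at this
      nlinarith
    · subst h; simp
    · have := hlc.slope_le_of_hasDerivAt (mem_Ioi.2 hW) (mem_Ioi.2 hx) h hdl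
      rw [slope_def_field, div_le_iff₀ (by linarith)] at this
      nlinarith
  calc κ x = Real.exp (Real.log (κ x)) := (Real.exp_log (hpos x hx)).symm
    _ ≤ Real.exp (Real.log (κ W) + d / κ W * (x - W)) := Real.exp_le_exp.2 key
    _ = κ W * Real.exp (d / κ W * (x - W)) := by rw [Real.exp_add, Real.exp_log (hpos W hW)]

/-- `∫_0^W e^{Λ (W - x) / W} dx = W (e^Λ - 1) / Λ`. -/
theorem integral_exp_aux (W L : ℝ) (hW : 0 < W) (hL : L ≠ 0) :
    ∫ x in (0 : ℝ)..W, Real.exp (-L / W * (x - W)) = W * (Real.exp L - 1) / L := by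
  have h : ∀ x ∈ Set.uIcc (0 : ℝ) W,
      HasDerivAt (fun x => -(W / L) * Real.exp (-L / W * (x - W)))
        (Real.exp (-L / W * (x - W))) x := by
    intro x _
    have h1 : HasDerivAt (fun x : ℝ => -L / W * (x - W)) (-L / W * 1) x :=
      ((hasDerivAt_id x).sub_const W).const_mul _
    have h2 := (h1.exp).const_mul (-(W / L))
    have h3 : -(W / L) * (Real.exp (-L / W * (x - W)) * (-L / W * 1))
        = Real.exp (-L / W * (x - W)) := by
      have h4 : -(W / L) * (-L / W * 1) = 1 := by
        field_simp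
      calc -(W / L) * (Real.exp (-L / W * (x - W)) * (-L / W * 1))
          = (-(W / L) * (-L / W * 1)) * Real.exp (-L / W * (x - W)) := by ring
        _ = Real.exp (-L / W * (x - W)) := by rw [h4, one_mul]
    rw [h3] at h2
    exact h2
  rw [intervalIntegral.integral_eq_sub_of_hasDerivAt h]
  · have e1 : -L / W * (W - W) = 0 := by ring
    have e2 : -L / W * (0 - W) = L := by field_simp; ring
    rw [e1, e2, Real.exp_zero]
    field_simp
    ring
  · apply Continuous.intervalIntegrable
    fun_prop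

/-- The two pointwise inequalities. -/
theorem m_bounds {κ Φ : ℝ → ℝ} {W d : ℝ} (hpos : ∀ x, 0 < x → 0 < κ x)
    (hanti : AntitoneOn κ (Ioi 0))
    (hlc : ConcaveOn ℝ (Ioi 0) (fun x => Real.log (κ x))) (hW : 0 < W)
    (hd : HasDerivAt κ d W) (hΦ : Φ W = ∫ x in (0 : ℝ)..W, κ x)
    (hint : IntervalIntegrable κ volume 0 W) :
    0 < Φ W ∧ W * κ W / Φ W ≤ 1 ∧ 0 ≤ -(W * d / κ W) ∧
      3 ≤ (2 + √3) * (W * κ W / Φ W) + -(W * d / κ W) := by
  have hκW := hpos W hW
  have hlow : W * κ W ≤ Φ W := by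
    rw [hΦ]
    have h1 : ∫ _x in (0 : ℝ)..W, κ W = W * κ W := by
      rw [intervalIntegral.integral_const]; simp
    rw [← h1]
    apply intervalIntegral.integral_mono_on_of_le_Ioo hW.le (by simp) hint
    intro x hx
    exact hanti (mem_Ioi.2 hx.1) (mem_Ioi.2 hW) hx.2.le
  have hWκ : 0 < W * κ W := mul_pos hW hκW
  have hΦpos : 0 < Φ W := lt_of_lt_of_le hWκ hlow
  have hd0 : d ≤ 0 := by
    by_contra hcon
    push Not at hcon
    -- the derivative of an antitone function is nonpositive
    have h1 : ∀ᶠ x in nhdsWithin W (Ioi W), 0 < (κ x - κ W) / (x - W) := by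
      have h2 := (hasDerivAt_iff_tendsto_slope.1 hd)
      have h3 : Tendsto (slope κ W) (nhdsWithin W (Ioi W)) (nhds d) :=
        h2.mono_left (nhdsWithin_mono _ (fun y hy => ne_of_gt hy))
      have h4 := h3.eventually (lt_mem_nhds hcon)
      filter_upwards [h4] with x hx
      rwa [slope_def_field] at hx
    obtain ⟨x, hx1, hx2⟩ := (h1.and self_mem_nhdsWithin).exists
    have hx3 : W < x := hx2
    have h5 : κ x ≤ κ W := hanti (mem_Ioi.2 hW) (mem_Ioi.2 (hW.trans hx3)) hx3.le
    have h6 : (κ x - κ W) / (x - W) ≤ 0 :=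
      div_nonpos_of_nonpos_of_nonneg (by linarith) (by linarith)
    linarith
  set L : ℝ := -(W * d / κ W) with hLdef
  have hL0 : 0 ≤ L := by
    have : W * d / κ W ≤ 0 :=
      div_nonpos_of_nonpos_of_nonneg (mul_nonpos_of_nonneg_of_nonpos hW.le hd0) hκW.le
    linarith
  have hm1 : W * κ W / Φ W ≤ 1 := (div_le_one hΦpos).2 hlow
  have hm0 : 0 < W * κ W / Φ W := div_pos hWκ hΦpos
  have hs3 : 0 ≤ √3 := Real.sqrt_nonneg 3
  refine ⟨hΦpos, hm1, hL0, ?_⟩
  have hexpo : ∀ x, d / κ W * (x - W) = -L / W * (x - W) := by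
    intro x
    rw [hLdef]
    field_simp
  -- upper bound of Φ
  have hup : Φ W ≤ κ W * ∫ x in (0 : ℝ)..W, Real.exp (-L / W * (x - W)) := by
    rw [hΦ, ← intervalIntegral.integral_const_mul]
    apply intervalIntegral.integral_mono_on_of_le_Ioo hW.le hint
    · apply Continuous.intervalIntegrable; fun_prop
    · intro x hx
      have := tangent hpos hlc hW hd x hx.1
      rwa [hexpo] at this
  rcases eq_or_lt_of_le hL0 with h0 | h0
  · rw [← h0] at hup
    simp only [neg_zero, zero_div, zero_mul, Real.exp_zero, intervalIntegral.integral_const,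
      sub_zero, smul_eq_mul, mul_one] at hup
    have h1 : 1 ≤ W * κ W / Φ W := by
      rw [le_div_iff₀ hΦpos]; linarith
    have h2 : (1 : ℝ) ≤ √3 := by
      apply Real.le_sqrt_of_sq_le
      norm_num
    rw [← h0]
    nlinarith
  · rcases le_or_gt 3 L with h3 | h3
    · nlinarith [mul_nonneg (by linarith : (0 : ℝ) ≤ 2 + √3) hm0.le]
    · rw [integral_exp_aux W L hW h0.ne'] at hup
      have hE : 0 < Real.exp L - 1 := by
        have := Real.add_one_le_exp L
        linarith
      have hm : L / (Real.exp L - 1) ≤ W * κ W / Φ W := by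
        rw [div_le_div_iff₀ hE hΦpos]
        have h1 : Φ W * L ≤ κ W * (W * (Real.exp L - 1) / L) * L :=
          mul_le_mul_of_nonneg_right hup hL0
        have h2 : κ W * (W * (Real.exp L - 1) / L) * L = W * κ W * (Real.exp L - 1) := by
          field_simp
        linarith
      have hg := g_nonneg L hL0
      have h4 : 3 ≤ (2 + √3) * (L / (Real.exp L - 1)) + L := by
        have h5 : (2 + √3) * (L / (Real.exp L - 1)) + L
            = ((2 + √3) * L + L * (Real.exp L - 1)) / (Real.exp L - 1) := by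
          field_simp
        rw [h5, le_div_iff₀ hE]
        nlinarith
      have h6 : (2 + √3) * (L / (Real.exp L - 1)) ≤ (2 + √3) * (W * κ W / Φ W) :=
        mul_le_mul_of_nonneg_left hm (by linarith)
      linarith

end Pool.Agent.Lib.MP_2d002d_gt.PM.H70
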